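import Pool.Agent.Y5.V.Stm4

/-!
# Dilation of solutions with the period `1/m`
-/

set_option autoImplicit false

open Set Filter Topology
open scoped ComplexConjugate

namespace Pool.Agent.Y108.VL.Und

open Pool.Agent.Y5.V
open Pool.Agent.Y6.M (Z3 C3 Coef dt kc cj nsq len adv leray IsField energy)

theorem mu_inj {m : ℕ} (hm : 0 < m) : Function.Injective (mu m) := by
  intro a b h
  funext i
  have h1 : (m : ℤ) * a i = m * b i := congrFun h i
  exact mul_left_cancel₀ (by exact_mod_cast hm.ne') h1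

theorem mul_range {m : ℕ} {k : Z3} (h : Mul m k) : k ∈ Set.range (mu m) := by
  choose q hq using h
  exact ⟨q, funext fun i => (hq i).symm⟩

theorem kc_mu (m : ℕ) (k : Z3) : kc (mu m k) = fun j => (m : ℂ) * kc k j := by
  funext j
  show (((m : ℤ) * k j : ℤ) : ℂ) = (m : ℂ) * (k j : ℂ)
  push_cast
  ring

theorem nsq_mu (m : ℕ) (k : Z3) : nsq (mu m k) = (m : ℤ) ^ 2 * nsq k := by
  unfold nsq mu
  rw [Finset.mul_sum]
  refine Finset.sum_congr rfl fun j _ => ?_
  ring

theorem mu_sub (m : ℕ) (k q : Z3) : mu m k - mu m q = mu m (k - q) := by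
  funext i
  show (m : ℤ) * k i - m * q i = m * (k i - q i)
  ring

theorem mu_neg (m : ℕ) (k : Z3) : mu m (-k) = -mu m k := by
  funext i
  show (m : ℤ) * (-k i) = -(m * k i)
  ring

theorem mu_zero (m : ℕ) : mu m 0 = 0 := by
  funext i
  show (m : ℤ) * 0 = 0
  ring

theorem mu_ne {m : ℕ} (hm : 0 < m) {k : Z3} (hk : k ≠ 0) : mu m k ≠ 0 := by
  intro h
  apply hk
  apply mu_inj hm
  rw [h, mu_zero]

theorem dt_smul (c : ℂ) (a b : C3) : dt a (fun j => c * b j) = c * dt a b := by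
  unfold dt
  rw [Finset.mul_sum]
  refine Finset.sum_congr rfl fun j _ => ?_
  ring

theorem dt_smul' (c : ℂ) (a b : C3) : dt (fun j => c * a j) b = c * dt a b := by
  unfold dt
  rw [Finset.mul_sum]
  refine Finset.sum_congr rfl fun j _ => ?_
  ring

theorem len_mu {m : ℕ} (hm : 0 < m) (k : Z3) : len k ≤ len (mu m k) := by
  unfold len
  apply Real.sqrt_le_sqrt
  rw [nsq_mu]
  have h0 : 0 ≤ nsq k := Finset.sum_nonneg fun j _ => sq_nonneg _
  have h1 : (1 : ℤ) ≤ (m : ℤ) ^ 2 := by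
    have : (1 : ℤ) ≤ m := by exact_mod_cast hm
    nlinarith
  have h2 : nsq k ≤ (m : ℤ) ^ 2 * nsq k := by nlinarith
  exact_mod_cast h2

theorem adv_mu {m : ℕ} (hm : 0 < m) (W : Coef) (hW : ∀ k, ¬ Mul m k → W k = 0) (k : Z3) :
    adv (fun k j => (m : ℂ) * W (mu m k) j) k = fun j => (m : ℂ) * adv W (mu m k) j := by
  funext j
  unfold adv
  have h1 := (mu_inj hm).tsum_eq (f := fun p : Z3 => 2 * Real.pi * Complex.I *
    dt (W p) (kc (mu m k - p)) * W (mu m k - p) j) (by
      intro p hp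
      rw [Function.mem_support] at hp
      by_contra hr
      apply hp
      have h2 : W p = 0 := hW p fun h => hr (mul_range h)
      have h3 : dt (W p) (kc (mu m k - p)) = 0 := by
        rw [h2]
        unfold dt
        simp
      rw [h3]
      ring)
  rw [← h1, ← tsum_mul_left]
  refine tsum_congr fun p => ?_
  rw [mu_sub, kc_mu, dt_smul, dt_smul']
  ring

theorem leray_mu {m : ℕ} (hm : 0 < m) (k : Z3) (w : C3) (j : Fin 3) :
    leray k (fun j => (m : ℂ) * w j) j = (m : ℂ) * leray (mu m k) w j := by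
  have hm' : (m : ℂ) ≠ 0 := by exact_mod_cast hm.ne'
  unfold leray
  rw [dt_smul, nsq_mu, kc_mu, dt_smul']
  have h1 : (((((m : ℤ) ^ 2 * nsq k : ℤ) : ℝ) : ℂ)) = (m : ℂ) ^ 2 * ((nsq k : ℝ) : ℂ) := by
    push_cast
    ring
  rw [h1]
  by_cases h0 : ((nsq k : ℝ) : ℂ) = 0
  · rw [h0]
    simp
  · field_simp

theorem rhs_mu {m : ℕ} (hm : 0 < m) (d : Z3 → ℝ) (W : Coef) (hW : ∀ k, ¬ Mul m k → W k = 0)
    (k : Z3) (j : Fin 3) :
    rhs (fun k => d (mu m k)) (fun k j => (m : ℂ) * W (mu m k) j) k j =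
      (m : ℂ) * rhs d W (mu m k) j := by
  unfold rhs
  rw [adv_mu hm W hW, leray_mu hm]
  ring

theorem field_mu {m : ℕ} (hm : 0 < m) (W : Coef) (h : IsField W) :
    IsField (fun k j => (m : ℂ) * W (mu m k) j) where
  zero := by
    funext j
    have := congrFun h.zero j
    simp only [mu_zero, this, Pi.zero_apply, mul_zero]
  real k j := by
    rw [mu_neg, h.real, map_mul, Complex.conj_natCast]
  div k := by
    have hm' : (m : ℂ) ≠ 0 := by exact_mod_cast hm.ne'
    have h1 := h.div (mu m k)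
    rw [kc_mu, dt_smul'] at h1
    rw [dt_smul]
    exact h1
  smooth q := by
    obtain ⟨M, hM⟩ := h.smooth q
    refine ⟨m * M, fun k j => ?_⟩
    rw [norm_mul, Complex.norm_natCast]
    have h1 := hM (mu m k) j
    have h2 : len k ^ q ≤ len (mu m k) ^ q :=
      pow_le_pow_left₀ (Real.sqrt_nonneg _) (len_mu hm k) q
    have h3 := mul_le_mul_of_nonneg_right h2 (norm_nonneg (W (mu m k) j))
    have h4 : (0 : ℝ) ≤ m := Nat.cast_nonneg m
    have h5 := mul_le_mul_of_nonneg_left (h3.trans h1) h4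
    linarith

theorem t_UND : S_UND := by
  intro d T W m hm h hW
  refine ⟨fun t ht => field_mu hm _ (h.field t ht), fun q T' hT' => ?_, fun k hk j t ht => ?_⟩
  · obtain ⟨M, hM⟩ := h.reg q T' hT'
    refine ⟨m * M, fun t ht k j => ?_⟩
    have h1 := hM t ht (mu m k) j
    rw [norm_mul, Complex.norm_natCast]
    have h2 : len k ^ q ≤ len (mu m k) ^ q :=
      pow_le_pow_left₀ (Real.sqrt_nonneg _) (len_mu hm k) q
    have h3 := mul_le_mul_of_nonneg_right h2 (norm_nonneg (W t (mu m k) j))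
    have h4 : (0 : ℝ) ≤ m := Nat.cast_nonneg m
    have h5 := mul_le_mul_of_nonneg_left (h3.trans h1) h4
    linarith
  · rw [rhs_mu hm d (W t) (hW t ht)]
    exact (h.eqn (mu m k) (mu_ne hm hk) j t ht).const_mul (m : ℂ)

end Pool.Agent.Y108.VL.Und
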